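import Mathlib
import Pool.Agent.Y186.CM.Final

set_option autoImplicit false

/-!
# The Cohen-Macaulay property of the top-dimensional part of the Jacobian ideal of a plane
arrangement is not determined by the intersection lattice
-/

namespace Pool.Agent.Results.MP_7f7c16_ag.TopPartNotCombinatorial

open MvPolynomial

/-- The linear form with coefficient vector `v`. -/
noncomputable def linForm {k : Type} [Field k] (v : Fin 4 → k) : MvPolynomial (Fin 4) k :=
  ∑ j : Fin 4, C (v j) * X j

/-- `ℓ` lists the equations of pairwise distinct planes. -/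
def IsArrangement {k : Type} [Field k] {n : ℕ} (ℓ : Fin n → Fin 4 → k) : Prop :=
  (∀ i, ℓ i ≠ 0) ∧ ∀ i j, i ≠ j → LinearIndependent k ![ℓ i, ℓ j]

/-- The intersection lattice: all intersections of subsets of the planes. -/
def Lat {k : Type} [Field k] {n : ℕ} (ℓ : Fin n → Fin 4 → k) : Set (Set (Fin 4 → k)) :=
  {W | ∃ S : Finset (Fin n), W = {x : Fin 4 → k | ∀ i ∈ S, ∑ j : Fin 4, ℓ i j * x j = 0}}

/-- The Jacobian ideal of the product of the linear forms. -/
noncomputable def jac {k : Type} [Field k] {n : ℕ} (ℓ : Fin n → Fin 4 → k) :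
    Ideal (MvPolynomial (Fin 4) k) :=
  Ideal.span (Set.range fun i : Fin 4 => pderiv (R := k) i (∏ a : Fin n, linForm (ℓ a)))

/-- The intersection of the primary components of height two of `J` (for an ideal `J` of height
at least two): the intersection, over the prime ideals `P` of height two that contain `J`, of the
preimages in `S` of the ideals `J S_P`. -/
noncomputable def topPart {S : Type} [CommRing S] (J : Ideal S) : Ideal S :=
  ⨅ (P : PrimeSpectrum S) (_ : J ≤ P.asIdeal) (_ : P.asIdeal.height = 2),
    (J.map (algebraMap S (Localization.AtPrime P.asIdeal))).comap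
      (algebraMap S (Localization.AtPrime P.asIdeal))

/-- A commutative ring is Cohen-Macaulay: every localization at a prime ideal has a regular
sequence in its maximal ideal whose length is the Krull dimension. -/
def IsCohenMac (S : Type) [CommRing S] : Prop :=
  ∀ (p : Ideal S) [p.IsPrime], ∃ rs : List (Localization.AtPrime p),
    (∀ r ∈ rs, r ∈ IsLocalRing.maximalIdeal (Localization.AtPrime p)) ∧
    RingTheory.Sequence.IsRegular (Localization.AtPrime p) rs ∧
    (rs.length : WithBot ℕ∞) = ringKrullDim (Localization.AtPrime p)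

/-- There are two arrangements of 13 planes in complex projective three-space with isomorphic
intersection lattices such that the quotient by the top-dimensional part of the Jacobian ideal is
Cohen-Macaulay for the first one and not for the second one. -/
theorem result : ∃ ℓ m : Fin 13 → Fin 4 → ℂ, IsArrangement ℓ ∧ IsArrangement m ∧
    Nonempty (↥(Lat ℓ) ≃o ↥(Lat m)) ∧
    IsCohenMac (MvPolynomial (Fin 4) ℂ ⧸ topPart (jac ℓ)) ∧
    ¬ IsCohenMac (MvPolynomial (Fin 4) ℂ ⧸ topPart (jac m)) := by
  refine ⟨Pool.Agent.Y186.CM.cast Pool.Agent.Y186.CM.fS,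
    Pool.Agent.Y186.CM.cast Pool.Agent.Y186.CM.fG,
    ⟨Pool.Agent.Y186.CM.cast_ne Pool.Agent.Y186.CM.okTop_LS, fun i j hij =>
      Pool.Agent.Y186.CM.nd_indep (Pool.Agent.Y186.CM.okTop_LS.2 i j hij).1⟩,
    ⟨Pool.Agent.Y186.CM.cast_ne Pool.Agent.Y186.CM.okTop_LG, fun i j hij =>
      Pool.Agent.Y186.CM.nd_indep (Pool.Agent.Y186.CM.okTop_LG.2 i j hij).1⟩,
    Pool.Agent.Y186.CM.iso, Pool.Agent.Y186.CM.isCM_S, Pool.Agent.Y186.CM.not_isCM_G⟩

end Pool.Agent.Results.MP_7f7c16_ag.TopPartNotCombinatorial
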